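import Pool.Agent.helper43.MS.Defs

open Bundle Manifold MeasureTheory Set Filter Topology
open scoped ContDiff ENNReal

namespace Pool.Agent.helper43.MS

section S1
variable {m : ℕ} {M : Type*} [TopologicalSpace M] [T2Space M] [SecondCountableTopology M]
  [ChartedSpace (E m) M] [IsManifold 𝓘(ℝ, E m) ∞ M] [MeasurableSpace M] [BorelSpace M]

/-- test functions are dense in `L²(M)` for a locally finite measure -/
theorem test_dense_of_locallyFinite {μ : Measure M} [IsLocallyFiniteMeasure μ]
    (f : Lp ℝ 2 μ) {ε : ℝ} (hε : 0 < ε) :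
    ∃ u : M → ℝ, IsTest m u ∧ eLpNorm (fun p => u p - f p) 2 μ ≤ ENNReal.ofReal ε := by
  have : LocallyCompactSpace M := Manifold.locallyCompact_of_finiteDimensional 𝓘(ℝ, E m)
  have : SigmaCompactSpace M := inferInstance
  have : TopologicalSpace.MetrizableSpace M := TopologicalSpace.metrizableSpace_of_t3_secondCountable M
  have : μ.Regular := inferInstance
  have hε2 : ENNReal.ofReal (ε / 2) ≠ 0 := by
    have : 0 < ENNReal.ofReal (ε / 2) := ENNReal.ofReal_pos.2 (by linarith)
    exact this.ne'
  obtain ⟨g, hgc, hg, hgcont, hgmem⟩ :=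
    (Lp.memLp f).exists_hasCompactSupport_eLpNorm_sub_le (by norm_num) hε2
  have hKfin : μ (tsupport g) < ⊤ := hgc.isCompact.measure_lt_top
  set c : ℝ := (μ (tsupport g)).toReal ^ ((2 : ℝ)⁻¹) with hc
  have hc0 : 0 ≤ c := by positivity
  have hδ : 0 < ε / 2 / (c + 1) := by positivity
  obtain ⟨u, hu, hus⟩ := hgcont.exists_contMDiff_approx (I := 𝓘(ℝ, E m)) ⊤
    (ε := fun _ => ε / 2 / (c + 1)) continuous_const (fun _ => hδ)
  refine ⟨u, ⟨u.contMDiff, ?_⟩, ?_⟩
  · exact hgc.mono hus
  · have h1 : (fun p => u p - f p) = (fun p => u p - g p) + (fun p => g p - f p) := by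
      funext p; simp
    have h2 : eLpNorm (fun p => g p - f p) 2 μ ≤ ENNReal.ofReal (ε / 2) := by
      have : (fun p => g p - f p) = -((f : M → ℝ) - g) := by funext p; simp
      rw [this, eLpNorm_neg]; exact hg
    have h3 : eLpNorm (fun p => u p - g p) 2 μ ≤ ENNReal.ofReal (ε / 2) := by
      have hind : (fun p => u p - g p) = (tsupport g).indicator (fun p => u p - g p) := by
        funext p
        by_cases hp : p ∈ tsupport g
        · simp [hp]
        · rw [indicator_of_notMem hp]
          have hg0 : g p = 0 := image_eq_zero_of_notMem_tsupport hp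
          have hu0 : u p = 0 := by
            by_contra h
            exact (hus h) hg0
          simp [hg0, hu0]
      rw [hind, eLpNorm_indicator_eq_eLpNorm_restrict (isClosed_tsupport g).measurableSet]
      refine (eLpNorm_le_of_ae_bound (C := ε / 2 / (c + 1)) ?_).trans ?_
      · exact Filter.Eventually.of_forall fun p => by
          have := (hu p).le
          rwa [Real.dist_eq] at this
      · rw [Measure.restrict_apply_univ]
        have h4 : (μ (tsupport g)) ^ ((2 : ℝ≥0∞).toReal⁻¹) = ENNReal.ofReal c := by
          rw [hc, ← ENNReal.ofReal_rpow_of_nonneg ENNReal.toReal_nonneg (by norm_num),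
            ENNReal.ofReal_toReal hKfin.ne]
          norm_num
        rw [h4, ← ENNReal.ofReal_mul hc0]
        apply ENNReal.ofReal_le_ofReal
        have : c * (ε / 2 / (c + 1)) = (ε / 2) * (c / (c + 1)) := by ring
        rw [this]
        have h5 : c / (c + 1) ≤ 1 := by
          rw [div_le_one (by positivity)]; linarith
        nlinarith
    rw [h1]
    refine (eLpNorm_add_le ?_ ?_ (by norm_num)).trans ?_
    · exact (u.contMDiff.continuous.sub hgcont).aestronglyMeasurable
    · exact hgcont.aestronglyMeasurable.sub (Lp.aestronglyMeasurable f)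
    · calc _ ≤ ENNReal.ofReal (ε / 2) + ENNReal.ofReal (ε / 2) := add_le_add h3 h2
        _ = ENNReal.ofReal ε := by
          rw [← ENNReal.ofReal_add (by linarith) (by linarith)]; congr 1; ring

end S1

end Pool.Agent.helper43.MS
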